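import Mathlib

/-!
# Lipschitz extension into p-Banach spaces as p tends to 0: a lower bound for traces

The p-norm on `ℝ²` with atoms `±(1,0)`, `±(0,1)`, `±(1,-1)`: the p-th power of the norm of `(x,y)` is
the sum of the two smallest of `|x|^p, |y|^p, |x+y|^p`.
-/

set_option autoImplicit false
open Filter Topology
open scoped ENNReal

namespace Pool.Agent.Q30.Lext

noncomputable section

/-- `N` is a `p`-norm on the real vector space `Z`. -/
structure IsPNorm (p : ℝ) {Z : Type} [AddCommGroup Z] [Module ℝ Z] (N : Z → ℝ) : Prop where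
  nonneg : ∀ x, 0 ≤ N x
  pos : ∀ x, x ≠ 0 → 0 < N x
  smul : ∀ (a : ℝ) (x : Z), N (a • x) = |a| * N x
  add : ∀ x y, N (x + y) ^ p ≤ N x ^ p + N y ^ p

/-- `(Z, N)` is a `p`-Banach space: `N` is a `p`-norm and `Z` is complete for the metric
`N (x - y) ^ p`. -/
structure IsPBanach (p : ℝ) {Z : Type} [AddCommGroup Z] [Module ℝ Z] (N : Z → ℝ) : Prop
    extends IsPNorm p N where
  complete : ∀ u : ℕ → Z, (∀ ε : ℝ, 0 < ε → ∃ k, ∀ m, k ≤ m → ∀ n, k ≤ n → N (u m - u n) ^ p < ε) →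
    ∃ z, Tendsto (fun n => N (u n - z) ^ p) atTop (𝓝 0)

/-- `Lip f = sup_{x ≠ y} N (f x - f y) / d(x, y)`, as an extended nonnegative number. -/
def lipC {A : Type} [MetricSpace A] {Z : Type} [AddCommGroup Z] (N : Z → ℝ) (f : A → Z) : ℝ≥0∞ :=
  ⨆ (x : A) (y : A) (_ : x ≠ y), ENNReal.ofReal (N (f x - f y) / dist x y)

/-- the constant `C` is good for extensions from `S` to `M` into `p`-Banach spaces. -/
def GoodConst (p : ℝ) {M : Type} [MetricSpace M] (S : Set M) (C : ℝ≥0∞) : Prop :=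
  ∀ (Z : Type) [AddCommGroup Z] [Module ℝ Z] (N : Z → ℝ), IsPBanach p N →
    ∀ f : S → Z, lipC N f < ⊤ → ∃ g : M → Z, (∀ x : S, g x = f x) ∧ lipC N g ≤ C * lipC N f

/-- the `p`-trace of the subset `S` in the metric space `M`. -/
def pTrace (p : ℝ) {M : Type} [MetricSpace M] (S : Set M) : ℝ≥0∞ :=
  sInf {C : ℝ≥0∞ | 0 < C ∧ GoodConst p S C}

/-- the absolute `p`-extendability constant of the metric space `A`. -/
def aeC (p : ℝ) (A : Type) [MetricSpace A] : ℝ≥0∞ :=
  ⨆ (M : Type) (_ : MetricSpace M) (ι : A → M) (_ : Isometry ι), pTrace p (Set.range ι)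

/-! ### the norm -/

section norm

variable {p : ℝ}

/-- the sum of the two smallest of `|a|^p, |b|^p, |c|^p` -/
def P3 (p a b c : ℝ) : ℝ := min (min (|a| ^ p + |b| ^ p) (|a| ^ p + |c| ^ p)) (|b| ^ p + |c| ^ p)

lemma P3_le1 (a b c : ℝ) : P3 p a b c ≤ |a| ^ p + |b| ^ p := (min_le_left _ _).trans (min_le_left _ _)
lemma P3_le2 (a b c : ℝ) : P3 p a b c ≤ |a| ^ p + |c| ^ p := (min_le_left _ _).trans (min_le_right _ _)
lemma P3_le3 (a b c : ℝ) : P3 p a b c ≤ |b| ^ p + |c| ^ p := min_le_right _ _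

lemma P3_nonneg (a b c : ℝ) : 0 ≤ P3 p a b c := by
  unfold P3
  positivity

lemma P3_cases (a b c : ℝ) : P3 p a b c = |a| ^ p + |b| ^ p ∨ P3 p a b c = |a| ^ p + |c| ^ p ∨
    P3 p a b c = |b| ^ p + |c| ^ p := by
  unfold P3
  rcases min_choice (min (|a| ^ p + |b| ^ p) (|a| ^ p + |c| ^ p)) (|b| ^ p + |c| ^ p) with h | h
  · rcases min_choice (|a| ^ p + |b| ^ p) (|a| ^ p + |c| ^ p) with h' | h' <;> rw [h, h'] <;> simp
  · rw [h]; simp

lemma abs_add_rpow (hp : 0 ≤ p) (hp1 : p ≤ 1) (a b : ℝ) : |a + b| ^ p ≤ |a| ^ p + |b| ^ p :=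
  (Real.rpow_le_rpow (abs_nonneg _) (abs_add_le a b) hp).trans
    (Real.rpow_add_le_add_rpow (abs_nonneg _) (abs_nonneg _) hp hp1)

lemma abs_sub_rpow (hp : 0 ≤ p) (hp1 : p ≤ 1) (a b : ℝ) : |a - b| ^ p ≤ |a| ^ p + |b| ^ p := by
  have := abs_add_rpow hp hp1 a (-b)
  rwa [abs_neg, ← sub_eq_add_neg] at this

lemma mid (hp : 0 ≤ p) (hp1 : p ≤ 1) {s m l : ℝ} (h1 : s ≤ m) (h2 : m ≤ l) :
    |s - m| ^ p + |m - l| ^ p ≤ |s| ^ p + |m| ^ p + |l| ^ p := by
  rcases le_total 0 m with h | h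
  · have h3 : |m - l| ≤ |l| := by
      rw [abs_of_nonpos (by linarith), abs_of_nonneg (by linarith)]
      linarith
    have h4 := Real.rpow_le_rpow (abs_nonneg _) h3 hp
    have h5 := abs_sub_rpow hp hp1 s m
    linarith
  · have h3 : |s - m| ≤ |s| := by
      rw [abs_of_nonpos (by linarith), abs_of_nonpos (by linarith)]
      linarith
    have h4 := Real.rpow_le_rpow (abs_nonneg _) h3 hp
    have h5 := abs_sub_rpow hp hp1 m l
    linarith

/-- the `p`-median of three points on the line is one of them -/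
lemma median (hp : 0 ≤ p) (hp1 : p ≤ 1) (a b c : ℝ) :
    P3 p (a - b) (a - c) (b - c) ≤ |a| ^ p + |b| ^ p + |c| ^ p := by
  have e1 := abs_sub_comm a b
  have e2 := abs_sub_comm a c
  have e3 := abs_sub_comm b c
  rcases le_total a b with h1 | h1 <;> rcases le_total b c with h2 | h2 <;> rcases le_total a c with h3 | h3
  · -- a ≤ b ≤ c : b middle
    have := mid hp hp1 h1 h2
    have h := P3_le2 (p := p) (a - b) (a - c) (b - c)
    linarith
  · have := mid hp hp1 h1 h2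
    have h := P3_le2 (p := p) (a - b) (a - c) (b - c)
    linarith
  · -- a ≤ c ≤ b
    have := mid hp hp1 h3 h2
    have h := P3_le3 (p := p) (a - b) (a - c) (b - c)
    rw [e3] at h
    linarith
  · -- c ≤ a ≤ b
    have := mid hp hp1 h3 h1
    have h := P3_le1 (p := p) (a - b) (a - c) (b - c)
    rw [e2] at h
    linarith
  · -- b ≤ a, b ≤ c, a ≤ c : a middle
    have := mid hp hp1 h1 h3
    have h := P3_le1 (p := p) (a - b) (a - c) (b - c)
    rw [e1] at h
    linarith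
  · -- b ≤ c ≤ a
    have := mid hp hp1 h2 h3
    have h := P3_le3 (p := p) (a - b) (a - c) (b - c)
    rw [e2] at h
    linarith
  · -- b ≤ a, c ≤ b, a ≤ c
    have := mid hp hp1 h2 h1
    have h := P3_le2 (p := p) (a - b) (a - c) (b - c)
    rw [e1, e3] at h
    linarith
  · -- c ≤ b ≤ a
    have := mid hp hp1 h2 h1
    have h := P3_le2 (p := p) (a - b) (a - c) (b - c)
    rw [e1, e3] at h
    linarith

lemma P3_abs {a b c a' b' c' : ℝ} (ha : |a| = |a'|) (hb : |b| = |b'|) (hc : |c| = |c'|) :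
    P3 p a b c = P3 p a' b' c' := by unfold P3; rw [ha, hb, hc]

lemma P3_swap12 (a b c : ℝ) : P3 p a b c = P3 p b a c := by
  unfold P3
  rw [add_comm (|a| ^ p) (|b| ^ p), min_assoc, min_comm (|a| ^ p + |c| ^ p), ← min_assoc]

lemma P3_swap23 (a b c : ℝ) : P3 p a b c = P3 p a c b := by
  unfold P3
  rw [min_comm (|a| ^ p + |b| ^ p), add_comm (|b| ^ p) (|c| ^ p)]

/-- `v` omits one coordinate, `w` another one -/
lemma tri_aux (hp : 0 ≤ p) (hp1 : p ≤ 1) {ci cj ck di dj dk : ℝ} (hc : ci + cj + ck = 0)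
    (hd : di + dj + dk = 0) :
    P3 p (ci + di) (cj + dj) (ck + dk) ≤ (|cj| ^ p + |ck| ^ p) + (|di| ^ p + |dk| ^ p) := by
  have h := median hp hp1 (cj - di) (-ck) dk
  have h2 : P3 p (cj - di - -ck) (cj - di - dk) (-ck - dk) = P3 p (ci + di) (cj + dj) (ck + dk) := by
    apply P3_abs
    · rw [show cj - di - -ck = -(ci + di) by linarith, abs_neg]
    · rw [show cj - di - dk = cj + dj by linarith]
    · rw [show -ck - dk = -(ck + dk) by ring, abs_neg]
  rw [h2] at h
  have h3 := abs_sub_rpow hp hp1 cj di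
  rw [abs_neg] at h
  linarith

lemma tri (hp : 0 ≤ p) (hp1 : p ≤ 1) {a b c a' b' c' : ℝ} (h : a + b + c = 0) (h' : a' + b' + c' = 0) :
    P3 p (a + a') (b + b') (c + c') ≤ P3 p a b c + P3 p a' b' c' := by
  have sa := abs_add_rpow hp hp1 a a'
  have sb := abs_add_rpow hp hp1 b b'
  have sc := abs_add_rpow hp hp1 c c'
  have q1 := P3_le1 (p := p) (a + a') (b + b') (c + c')
  have q2 := P3_le2 (p := p) (a + a') (b + b') (c + c')
  have q3 := P3_le3 (p := p) (a + a') (b + b') (c + c')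
  rcases P3_cases (p := p) a b c with e | e | e <;> rcases P3_cases (p := p) a' b' c' with e' | e' | e' <;>
    rw [e, e']
  · linarith
  · -- v omits c, w omits b : i = c, j = b, k = a
    have := tri_aux hp hp1 (ci := c) (cj := b) (ck := a) (di := c') (dj := b') (dk := a')
      (by linarith) (by linarith)
    rw [P3_swap23, P3_swap12, P3_swap23] at this
    linarith
  · -- v omits c, w omits a : i = c, j = a, k = b
    have := tri_aux hp hp1 (ci := c) (cj := a) (ck := b) (di := c') (dj := a') (dk := b')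
      (by linarith) (by linarith)
    rw [P3_swap12, P3_swap23] at this
    linarith
  · -- v omits b, w omits c : i = b, j = c, k = a
    have := tri_aux hp hp1 (ci := b) (cj := c) (ck := a) (di := b') (dj := c') (dk := a')
      (by linarith) (by linarith)
    rw [P3_swap23, P3_swap12] at this
    linarith
  · linarith
  · -- v omits b, w omits a : i = b, j = a, k = c
    have := tri_aux hp hp1 (ci := b) (cj := a) (ck := c) (di := b') (dj := a') (dk := c')
      (by linarith) (by linarith)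
    rw [P3_swap12] at this
    linarith
  · -- v omits a, w omits c : i = a, j = c, k = b
    have := tri_aux hp hp1 (ci := a) (cj := c) (ck := b) (di := a') (dj := c') (dk := b')
      (by linarith) (by linarith)
    rw [P3_swap23] at this
    linarith
  · -- v omits a, w omits b
    have := tri_aux hp hp1 (ci := a) (cj := b) (ck := c) (di := a') (dj := b') (dk := c')
      (by linarith) (by linarith)
    linarith
  · linarith

/-- the norm on `ℝ × ℝ` -/
def nrm (p : ℝ) (v : ℝ × ℝ) : ℝ := (P3 p v.1 v.2 (-v.1 - v.2)) ^ (1 / p)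

lemma nrm_rpow (hp : 0 < p) (v : ℝ × ℝ) : nrm p v ^ p = P3 p v.1 v.2 (-v.1 - v.2) := by
  unfold nrm
  rw [← Real.rpow_mul (P3_nonneg _ _ _), one_div, inv_mul_cancel₀ hp.ne', Real.rpow_one]

lemma nrm_nonneg (v : ℝ × ℝ) : 0 ≤ nrm p v := Real.rpow_nonneg (P3_nonneg _ _ _) _

lemma fst_le (hp : 0 < p) (hp1 : p ≤ 1) (v : ℝ × ℝ) : |v.1| ^ p ≤ nrm p v ^ p := by
  rw [nrm_rpow hp]
  have h0 : ∀ x : ℝ, 0 ≤ |x| ^ p := fun x => by positivity
  rcases P3_cases (p := p) v.1 v.2 (-v.1 - v.2) with e | e | e <;> rw [e]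
  · linarith [h0 v.2]
  · linarith [h0 (-v.1 - v.2)]
  · have := abs_add_rpow hp.le hp1 v.2 (-v.1 - v.2)
    rwa [show v.2 + (-v.1 - v.2) = -v.1 by ring, abs_neg] at this

lemma snd_le (hp : 0 < p) (hp1 : p ≤ 1) (v : ℝ × ℝ) : |v.2| ^ p ≤ nrm p v ^ p := by
  rw [nrm_rpow hp]
  have h0 : ∀ x : ℝ, 0 ≤ |x| ^ p := fun x => by positivity
  rcases P3_cases (p := p) v.1 v.2 (-v.1 - v.2) with e | e | e <;> rw [e]
  · linarith [h0 v.1]
  · have := abs_add_rpow hp.le hp1 v.1 (-v.1 - v.2)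
    rwa [show v.1 + (-v.1 - v.2) = -v.2 by ring, abs_neg] at this
  · linarith [h0 (-v.1 - v.2)]

lemma nrm_le (hp : 0 < p) (v : ℝ × ℝ) : nrm p v ^ p ≤ |v.1| ^ p + |v.2| ^ p := by
  rw [nrm_rpow hp]
  exact P3_le1 _ _ _

lemma P3_smul (t a b c : ℝ) : P3 p (t * a) (t * b) (t * c) = |t| ^ p * P3 p a b c := by
  unfold P3
  have h : ∀ x : ℝ, |t * x| ^ p = |t| ^ p * |x| ^ p := fun x => by
    rw [abs_mul, Real.mul_rpow (abs_nonneg _) (abs_nonneg _)]
  rw [h, h, h, mul_min_of_nonneg _ _ (by positivity), mul_min_of_nonneg _ _ (by positivity),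
    mul_add, mul_add, mul_add]

lemma nrm_isPNorm (hp : 0 < p) (hp1 : p ≤ 1) : IsPNorm p (nrm p) where
  nonneg := nrm_nonneg
  pos := by
    intro x hx
    rcases (nrm_nonneg (p := p) x).eq_or_lt with h | h
    · exfalso
      apply hx
      have h1 := fst_le hp hp1 x
      have h2 := snd_le hp hp1 x
      rw [← h, Real.zero_rpow hp.ne'] at h1 h2
      have g1 : |x.1| = 0 := by
        by_contra hne
        have : 0 < |x.1| ^ p := Real.rpow_pos_of_pos (lt_of_le_of_ne (abs_nonneg _) (Ne.symm hne)) _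
        linarith
      have g2 : |x.2| = 0 := by
        by_contra hne
        have : 0 < |x.2| ^ p := Real.rpow_pos_of_pos (lt_of_le_of_ne (abs_nonneg _) (Ne.symm hne)) _
        linarith
      exact Prod.ext (abs_eq_zero.1 g1) (abs_eq_zero.1 g2)
    · exact h
  smul := by
    intro a x
    unfold nrm
    have : P3 p (a • x).1 (a • x).2 (-(a • x).1 - (a • x).2) = |a| ^ p * P3 p x.1 x.2 (-x.1 - x.2) := by
      rw [← P3_smul]
      congr 1
      simp only [Prod.smul_fst, Prod.smul_snd, smul_eq_mul]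
      ring
    rw [this, Real.mul_rpow (by positivity) (P3_nonneg _ _ _), ← Real.rpow_mul (abs_nonneg _),
      mul_one_div_cancel hp.ne', Real.rpow_one]
  add := by
    intro x y
    rw [nrm_rpow hp, nrm_rpow hp, nrm_rpow hp]
    have := tri hp.le hp1 (a := x.1) (b := x.2) (c := -x.1 - x.2) (a' := y.1) (b' := y.2)
      (c' := -y.1 - y.2) (by ring) (by ring)
    have e : -(x + y).1 - (x + y).2 = -x.1 - x.2 + (-y.1 - y.2) := by
      simp only [Prod.fst_add, Prod.snd_add]; ring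
    rw [e]
    exact this

lemma nrm_isPBanach (hp : 0 < p) (hp1 : p ≤ 1) : IsPBanach p (nrm p) where
  toIsPNorm := nrm_isPNorm hp hp1
  complete := by
    intro u hu
    have hc : ∀ g : ℝ × ℝ → ℝ, (∀ v w, g (v - w) = g v - g w) → (∀ v, |g v| ^ p ≤ nrm p v ^ p) →
        ∃ z, Tendsto (fun n => g (u n)) atTop (𝓝 z) := by
      intro g hg hle
      apply cauchySeq_tendsto_of_complete
      rw [Metric.cauchySeq_iff']
      intro ε hε
      obtain ⟨k, hk⟩ := hu (ε ^ p) (by positivity)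
      refine ⟨k, fun n hn => ?_⟩
      have h1 := (hle (u n - u k)).trans_lt (hk n hn k le_rfl)
      rw [hg] at h1
      rw [Real.dist_eq]
      exact (Real.rpow_lt_rpow_iff (abs_nonneg _) hε.le hp).1 h1
    obtain ⟨x, hx⟩ := hc Prod.fst (fun v w => rfl) (fst_le hp hp1)
    obtain ⟨y, hy⟩ := hc Prod.snd (fun v w => rfl) (snd_le hp hp1)
    refine ⟨(x, y), ?_⟩
    have hx' : Tendsto (fun n => |(u n).1 - x| ^ p) atTop (𝓝 0) := by
      have : Tendsto (fun n => |(u n).1 - x| ^ p) atTop (𝓝 (|x - x| ^ p)) :=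
        ((hx.sub_const x).abs).rpow_const (Or.inr hp.le)
      rwa [sub_self, abs_zero, Real.zero_rpow hp.ne'] at this
    have hy' : Tendsto (fun n => |(u n).2 - y| ^ p) atTop (𝓝 0) := by
      have : Tendsto (fun n => |(u n).2 - y| ^ p) atTop (𝓝 (|y - y| ^ p)) :=
        ((hy.sub_const y).abs).rpow_const (Or.inr hp.le)
      rwa [sub_self, abs_zero, Real.zero_rpow hp.ne'] at this
    have hs := hx'.add hy'
    rw [add_zero] at hs
    exact squeeze_zero (fun n => Real.rpow_nonneg (nrm_nonneg _) _)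
      (fun n => nrm_le hp (u n - (x, y))) hs

/-- if every pair contains a large entry, the norm is large -/
lemma le_nrm (hp : 0 < p) {t : ℝ} (ht : 0 ≤ t) (v : ℝ × ℝ)
    (h12 : t ≤ |v.1| ∨ t ≤ |v.2|) (h13 : t ≤ |v.1| ∨ t ≤ |v.1 + v.2|)
    (h23 : t ≤ |v.2| ∨ t ≤ |v.1 + v.2|) : t ≤ nrm p v := by
  rw [← Real.rpow_le_rpow_iff ht (nrm_nonneg _) hp, nrm_rpow hp]
  have h0 : ∀ x : ℝ, 0 ≤ |x| ^ p := fun x => by positivity
  have hm : ∀ x : ℝ, t ≤ |x| → t ^ p ≤ |x| ^ p := fun x hx => Real.rpow_le_rpow ht hx hp.le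
  have e : |(-v.1 - v.2)| = |v.1 + v.2| := by rw [← abs_neg]; congr 1; ring
  rcases P3_cases (p := p) v.1 v.2 (-v.1 - v.2) with e' | e' | e' <;> rw [e']
  · rcases h12 with h | h
    · linarith [hm _ h, h0 v.2]
    · linarith [hm _ h, h0 v.1]
  · rw [e]
    rcases h13 with h | h
    · linarith [hm _ h, h0 (v.1 + v.2)]
    · linarith [hm _ h, h0 v.1]
  · rw [e]
    rcases h23 with h | h
    · linarith [hm _ h, h0 (v.1 + v.2)]
    · linarith [hm _ h, h0 v.2]

/-- the smallest entry is at most `2 ^ (-1/p)` times the norm -/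
lemma small_entry (hp : 0 < p) {E : ℝ} (v : ℝ × ℝ) (hE : nrm p v ≤ E) {ε : ℝ}
    (hε : E * 2 ^ (-(1 / p)) ≤ ε) : |v.1| ≤ ε ∨ |v.2| ≤ ε ∨ |v.1 + v.2| ≤ ε := by
  by_contra hcon
  push Not at hcon
  obtain ⟨h1, h2, h3⟩ := hcon
  have hE0 : 0 ≤ E := (nrm_nonneg _).trans hE
  have hε0 : 0 ≤ ε := le_trans (by positivity) hε
  have e : |(-v.1 - v.2)| = |v.1 + v.2| := by rw [← abs_neg]; congr 1; ring
  have hm : ∀ x : ℝ, ε < |x| → ε ^ p < |x| ^ p := fun x hx => Real.rpow_lt_rpow hε0 hx hp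
  have hlt : 2 * ε ^ p < nrm p v ^ p := by
    rw [nrm_rpow hp]
    rcases P3_cases (p := p) v.1 v.2 (-v.1 - v.2) with e' | e' | e' <;> rw [e']
    · linarith [hm _ h1, hm _ h2]
    · rw [e]; linarith [hm _ h1, hm _ h3]
    · rw [e]; linarith [hm _ h2, hm _ h3]
  have h4 : nrm p v ^ p ≤ E ^ p := Real.rpow_le_rpow (nrm_nonneg _) hE hp.le
  have h5 : E ^ p * 2⁻¹ ≤ ε ^ p := by
    have := Real.rpow_le_rpow (by positivity) hε hp.le
    rw [Real.mul_rpow hE0 (by positivity), ← Real.rpow_mul (by norm_num : (0:ℝ) ≤ 2)] at this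
    rwa [show -(1 / p) * p = -1 by field_simp, Real.rpow_neg_one] at this
  linarith

end norm

end

end Pool.Agent.Q30.Lext
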