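import Pool.Agent.Q30.Lext.Core

/-!
# The lower bound: as `p → 0` an extension is close to a retraction
-/

set_option autoImplicit false
open Filter Topology
open scoped ENNReal

namespace Pool.Agent.Q30.Lext

noncomputable section

lemma lipC_le {A : Type} [MetricSpace A] {Z : Type} [AddCommGroup Z] {N : Z → ℝ} {f : A → Z} {L : ℝ}
    (h : ∀ x y, x ≠ y → N (f x - f y) ≤ L * dist x y) : lipC N f ≤ ENNReal.ofReal L := by
  refine iSup_le fun x => iSup_le fun y => iSup_le fun hxy => ENNReal.ofReal_le_ofReal ?_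
  rw [div_le_iff₀ (dist_pos.2 hxy)]
  exact h x y hxy

lemma le_of_lipC {A : Type} [MetricSpace A] {Z : Type} [AddCommGroup Z] {N : Z → ℝ} {f : A → Z}
    {L : ℝ} (hL : 0 ≤ L) (h : lipC N f ≤ ENNReal.ofReal L) {x y : A} (hxy : x ≠ y) :
    N (f x - f y) ≤ L * dist x y := by
  have h1 : ENNReal.ofReal (N (f x - f y) / dist x y) ≤ ENNReal.ofReal L := by
    refine le_trans ?_ h
    exact le_iSup_of_le x (le_iSup_of_le y (le_iSup_of_le hxy le_rfl))
  rw [ENNReal.ofReal_le_ofReal_iff hL, div_le_iff₀ (dist_pos.2 hxy)] at h1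
  exact h1

lemma nrm_zero' {p : ℝ} (hp : 0 < p) (hp1 : p ≤ 1) : nrm p 0 = 0 := by
  have := (nrm_isPNorm hp hp1).smul 0 0
  rwa [smul_zero, abs_zero, zero_mul] at this

lemma classify {ε : ℝ} (hε : ε ≤ 1 / 40) (v : ℝ × ℝ)
    (h1 : |v.1 - 1| ≤ ε ∨ |v.2| ≤ ε ∨ |v.1 + v.2 - 1| ≤ ε)
    (h2 : |v.1| ≤ ε ∨ |v.2 - 1| ≤ ε ∨ |v.1 + v.2 - 1| ≤ ε)
    (h3 : |v.1| ≤ ε ∨ |v.2| ≤ ε ∨ |v.1 + v.2| ≤ ε) :
    (|v.1 - 1| ≤ 2 * ε ∧ |v.2| ≤ 2 * ε) ∨ (|v.1| ≤ 2 * ε ∧ |v.2 - 1| ≤ 2 * ε) ∨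
      (|v.1| ≤ 2 * ε ∧ |v.2| ≤ 2 * ε) := by
  simp only [abs_le] at *
  rcases h1 with ⟨a1, a2⟩ | ⟨a1, a2⟩ | ⟨a1, a2⟩ <;> rcases h2 with ⟨b1, b2⟩ | ⟨b1, b2⟩ | ⟨b1, b2⟩ <;>
    rcases h3 with ⟨c1, c2⟩ | ⟨c1, c2⟩ | ⟨c1, c2⟩ <;>
    first
    | (exfalso; linarith)
    | (refine Or.inl ⟨⟨?_, ?_⟩, ⟨?_, ?_⟩⟩ <;> linarith)
    | (refine Or.inr (Or.inl ⟨⟨?_, ?_⟩, ⟨?_, ?_⟩⟩) <;> linarith)
    | (refine Or.inr (Or.inr ⟨⟨?_, ?_⟩, ⟨?_, ?_⟩⟩) <;> linarith)

lemma exists_jump {K : ℕ} {A : ℕ → Prop} (h0 : A 0) (hK : ¬ A K) : ∃ k, k < K ∧ A k ∧ ¬ A (k + 1) := by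
  induction K with
  | zero => exact absurd h0 hK
  | succ n ih =>
    by_cases h : A n
    · exact ⟨n, Nat.lt_succ_self n, h, hK⟩
    · obtain ⟨k, hk, h1, h2⟩ := ih h
      exact ⟨k, hk.trans (Nat.lt_succ_self n), h1, h2⟩

/-- the function on the three points -/
def fv {M : Type} (a b : M) (x : M) : ℝ × ℝ := by
  classical exact if x = a then (1, 0) else if x = b then (0, 1) else 0

variable {M : Type} [MetricSpace M]

/-- the main estimate: a good constant is at least `(1 - 8 ε) / h`. -/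
lemma good_ge {p : ℝ} (hp : 0 < p) (hp1 : p ≤ 1) {a b c : M} (hab : 1 ≤ dist a b) (hac : 1 ≤ dist a c)
    (hbc : 1 ≤ dist b c) {C : ℝ≥0∞} (hC : GoodConst p ({a, b, c} : Set M) C) {C₀ D ε h : ℝ}
    (hC₀ : 0 ≤ C₀) (hCC : C ≤ ENNReal.ofReal C₀) (hε : ε ≤ 1 / 40)
    (hsmall : C₀ * D * 2 ^ (-(1 / p)) ≤ ε) (K : ℕ) (x : ℕ → M) (hx0 : x 0 = a) (hxK : x K = b)
    (hstep : ∀ k, k < K → dist (x k) (x (k + 1)) ≤ h)
    (hD : ∀ k, k ≤ K → dist (x k) a ≤ D ∧ dist (x k) b ≤ D ∧ dist (x k) c ≤ D) :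
    1 - 8 * ε ≤ C₀ * h := by
  classical
  have hN := nrm_isPBanach hp hp1
  have nab : a ≠ b := fun e => by rw [e, dist_self] at hab; linarith
  have nac : a ≠ c := fun e => by rw [e, dist_self] at hac; linarith
  have nbc : b ≠ c := fun e => by rw [e, dist_self] at hbc; linarith
  have hfa : fv a b a = (1, 0) := by unfold fv; simp
  have hfb : fv a b b = (0, 1) := by unfold fv; rw [if_neg nab.symm, if_pos rfl]
  have hfc : fv a b c = 0 := by unfold fv; rw [if_neg nac.symm, if_neg nbc.symm]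
  -- atoms have norm at most one
  have atom : ∀ v : ℝ × ℝ, ((|v.1| = 1 ∧ |v.2| = 0) ∨ (|v.1| = 0 ∧ |v.2| = 1) ∨
      (|v.1| = 1 ∧ |v.1 + v.2| = 0)) → nrm p v ≤ 1 := by
    intro v hv
    rw [← Real.rpow_le_rpow_iff (nrm_nonneg _) zero_le_one hp, nrm_rpow hp, Real.one_rpow]
    have e : |(-v.1 - v.2)| = |v.1 + v.2| := by rw [← abs_neg]; congr 1; ring
    rcases hv with ⟨h1, h2⟩ | ⟨h1, h2⟩ | ⟨h1, h2⟩
    · refine (P3_le1 _ _ _).trans ?_
      rw [h1, h2, Real.one_rpow, Real.zero_rpow hp.ne']; norm_num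
    · refine (P3_le1 _ _ _).trans ?_
      rw [h1, h2, Real.one_rpow, Real.zero_rpow hp.ne']; norm_num
    · refine (P3_le2 _ _ _).trans ?_
      rw [e, h1, h2, Real.one_rpow, Real.zero_rpow hp.ne']; norm_num
  let f : ({a, b, c} : Set M) → ℝ × ℝ := fun s => fv a b s.1
  have hf1 : lipC (nrm p) f ≤ ENNReal.ofReal 1 := by
    apply lipC_le
    intro s t hst
    have key : ∀ s' t' : M, s' ∈ ({a, b, c} : Set M) → t' ∈ ({a, b, c} : Set M) → s' ≠ t' →
        nrm p (fv a b s' - fv a b t') ≤ 1 * dist s' t' := by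
      intro s' t' hs' ht' hne
      rw [one_mul]
      rcases hs' with rfl | rfl | rfl <;> rcases ht' with rfl | rfl | rfl
      · exact absurd rfl hne
      · refine le_trans (atom _ ?_) hab
        rw [hfa, hfb]; right; right; norm_num
      · refine le_trans (atom _ ?_) hac
        rw [hfa, hfc]; left; norm_num
      · rw [dist_comm]
        refine le_trans (atom _ ?_) hab
        rw [hfa, hfb]; right; right; norm_num
      · exact absurd rfl hne
      · refine le_trans (atom _ ?_) hbc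
        rw [hfb, hfc]; right; left; norm_num
      · rw [dist_comm]
        refine le_trans (atom _ ?_) hac
        rw [hfa, hfc]; left; norm_num
      · rw [dist_comm]
        refine le_trans (atom _ ?_) hbc
        rw [hfb, hfc]; right; left; norm_num
      · exact absurd rfl hne
    exact key s.1 t.1 s.2 t.2 (fun e => hst (Subtype.ext e))
  obtain ⟨g, hgf, hg⟩ := hC (ℝ × ℝ) (nrm p) hN f (hf1.trans_lt ENNReal.ofReal_lt_top)
  have hgL : lipC (nrm p) g ≤ ENNReal.ofReal C₀ := by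
    refine hg.trans ?_
    calc C * lipC (nrm p) f ≤ ENNReal.ofReal C₀ * ENNReal.ofReal 1 := mul_le_mul' hCC hf1
      _ = ENNReal.ofReal C₀ := by rw [ENNReal.ofReal_one, mul_one]
  have hlip : ∀ s t : M, nrm p (g s - g t) ≤ C₀ * dist s t := by
    intro s t
    by_cases hst : s = t
    · rw [hst, sub_self, nrm_zero' hp hp1, dist_self, mul_zero]
    · exact le_of_lipC hC₀ hgL hst
  have ga : g a = (1, 0) := by
    have := hgf ⟨a, by simp⟩
    rw [this]; exact hfa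
  have gb : g b = (0, 1) := by
    have := hgf ⟨b, by simp⟩
    rw [this]; exact hfb
  have gc : g c = 0 := by
    have := hgf ⟨c, by simp⟩
    rw [this]; exact hfc
  have hε0 : 0 ≤ ε := by
    refine le_trans ?_ hsmall
    have : 0 ≤ D := dist_nonneg.trans (hD 0 (Nat.zero_le _)).1
    positivity
  have hcl : ∀ k, k ≤ K → (|(g (x k)).1 - 1| ≤ 2 * ε ∧ |(g (x k)).2| ≤ 2 * ε) ∨
      (|(g (x k)).1| ≤ 2 * ε ∧ |(g (x k)).2 - 1| ≤ 2 * ε) ∨
      (|(g (x k)).1| ≤ 2 * ε ∧ |(g (x k)).2| ≤ 2 * ε) := by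
    intro k hk
    obtain ⟨d1, d2, d3⟩ := hD k hk
    have s1 := small_entry hp (g (x k) - g a)
      ((hlip _ _).trans (mul_le_mul_of_nonneg_left d1 hC₀)) hsmall
    have s2 := small_entry hp (g (x k) - g b)
      ((hlip _ _).trans (mul_le_mul_of_nonneg_left d2 hC₀)) hsmall
    have s3 := small_entry hp (g (x k) - g c)
      ((hlip _ _).trans (mul_le_mul_of_nonneg_left d3 hC₀)) hsmall
    rw [ga] at s1
    rw [gb] at s2
    rw [gc, sub_zero] at s3
    apply classify hε _ _ _ s3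
    · simp only [Prod.fst_sub, Prod.snd_sub, sub_zero] at s1
      rcases s1 with h' | h' | h'
      · exact Or.inl h'
      · exact Or.inr (Or.inl h')
      · exact Or.inr (Or.inr (by rwa [show (g (x k)).1 - 1 + (g (x k)).2 =
          (g (x k)).1 + (g (x k)).2 - 1 by ring] at h'))
    · simp only [Prod.fst_sub, Prod.snd_sub, sub_zero] at s2
      rcases s2 with h' | h' | h'
      · exact Or.inl h'
      · exact Or.inr (Or.inl h')
      · exact Or.inr (Or.inr (by rwa [show (g (x k)).1 + ((g (x k)).2 - 1) =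
          (g (x k)).1 + (g (x k)).2 - 1 by ring] at h'))
  obtain ⟨k, hk, hAk, hAk1⟩ := exists_jump (K := K)
    (A := fun k => |(g (x k)).1 - 1| ≤ 2 * ε ∧ |(g (x k)).2| ≤ 2 * ε)
    (by
      show |(g (x 0)).1 - 1| ≤ 2 * ε ∧ |(g (x 0)).2| ≤ 2 * ε
      rw [hx0, ga]
      simp only [sub_self, abs_zero]
      exact ⟨by linarith, by linarith⟩)
    (by
      show ¬ (|(g (x K)).1 - 1| ≤ 2 * ε ∧ |(g (x K)).2| ≤ 2 * ε)
      rw [hxK, gb]
      simp only [zero_sub, abs_neg, abs_one]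
      intro h'
      linarith [h'.1])
  have hcl1 := (hcl (k + 1) hk).resolve_left hAk1
  have hle : nrm p (g (x k) - g (x (k + 1))) ≤ C₀ * h :=
    (hlip _ _).trans (mul_le_mul_of_nonneg_left (hstep k hk) hC₀)
  refine le_trans ?_ hle
  obtain ⟨a1, a2⟩ := hAk
  rw [abs_le] at a1 a2
  apply le_nrm hp (by linarith)
  · left
    refine le_trans ?_ (le_abs_self _)
    simp only [Prod.fst_sub]
    rcases hcl1 with ⟨b1, b2⟩ | ⟨b1, b2⟩
    · rw [abs_le] at b1 b2; linarith [a1.1, b1.2]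
    · rw [abs_le] at b1 b2; linarith [a1.1, b1.2]
  · left
    refine le_trans ?_ (le_abs_self _)
    simp only [Prod.fst_sub]
    rcases hcl1 with ⟨b1, b2⟩ | ⟨b1, b2⟩
    · rw [abs_le] at b1 b2; linarith [a1.1, b1.2]
    · rw [abs_le] at b1 b2; linarith [a1.1, b1.2]
  · rcases hcl1 with ⟨b1, b2⟩ | ⟨b1, b2⟩
    · left
      rw [abs_le] at b1 b2
      refine le_trans ?_ (neg_le_abs _)
      simp only [Prod.snd_sub]
      linarith [a2.2, b2.1]
    · right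
      rw [abs_le] at b1 b2
      refine le_trans ?_ (le_abs_self _)
      simp only [Prod.fst_sub, Prod.snd_sub]
      linarith [a1.1, a2.1, b1.2, b2.2]

/-- the lower bound for the traces as `p → 0` -/
theorem trace_ge {a b c : M} (hab : 1 ≤ dist a b) (hac : 1 ≤ dist a c) (hbc : 1 ≤ dist b c)
    {h D : ℝ} (hh : 0 < h) (K : ℕ) (x : ℕ → M) (hx0 : x 0 = a) (hxK : x K = b)
    (hstep : ∀ k, k < K → dist (x k) (x (k + 1)) ≤ h)
    (hD : ∀ k, k ≤ K → dist (x k) a ≤ D ∧ dist (x k) b ≤ D ∧ dist (x k) c ≤ D)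
    {δ : ℝ} (hδ : 0 < δ) :
    ∀ᶠ p : ℝ in 𝓝[>] 0, ENNReal.ofReal ((1 - δ) / h) ≤ pTrace p ({a, b, c} : Set M) := by
  wlog hδ1 : δ < 1 generalizing δ
  · refine Filter.Eventually.of_forall fun p => ?_
    rw [ENNReal.ofReal_of_nonpos (div_nonpos_of_nonpos_of_nonneg (by linarith) hh.le)]
    exact zero_le
  set C₀ := (1 - δ) / h with hC₀
  have hC₀0 : 0 ≤ C₀ := div_nonneg (by linarith) hh.le
  have hlim : Tendsto (fun p : ℝ => C₀ * D * 2 ^ (-(1 / p))) (𝓝[>] 0) (𝓝 0) := by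
    have h1 : Tendsto (fun p : ℝ => ((1 : ℝ) / 2) ^ p⁻¹) (𝓝[>] 0) (𝓝 0) :=
      (tendsto_rpow_atTop_of_base_lt_one (1 / 2) (by norm_num) (by norm_num)).comp
        tendsto_inv_nhdsGT_zero
    have h2 : (fun p : ℝ => (2 : ℝ) ^ (-(1 / p))) = fun p : ℝ => ((1 : ℝ) / 2) ^ p⁻¹ := by
      funext p
      rw [Real.rpow_neg (by norm_num), one_div, one_div, Real.inv_rpow (by norm_num)]
    have h3 : Tendsto (fun p : ℝ => (2 : ℝ) ^ (-(1 / p))) (𝓝[>] 0) (𝓝 0) := by rw [h2]; exact h1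
    have := h3.const_mul (C₀ * D)
    rwa [mul_zero] at this
  set ε := min (δ / 16) (1 / 40) with hε
  have hε0 : 0 < ε := lt_min (by linarith) (by norm_num)
  have hev := hlim.eventually (gt_mem_nhds hε0)
  have hev1 : ∀ᶠ p : ℝ in 𝓝[>] 0, p < 1 := by
    filter_upwards [Ioo_mem_nhdsGT (show (0:ℝ) < 1 by norm_num)] with p hp using hp.2
  filter_upwards [hev, hev1, self_mem_nhdsWithin] with p hp hp1 hp0
  have hp0' : (0 : ℝ) < p := hp0
  refine le_sInf fun C hC => ?_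
  by_contra hlt
  push Not at hlt
  have := good_ge hp0' hp1.le hab hac hbc hC.2 hC₀0 hlt.le (min_le_right _ _) hp.le K x hx0 hxK
    hstep hD
  have e : C₀ * h = 1 - δ := by rw [hC₀]; field_simp
  rw [e] at this
  have := min_le_left (δ / 16) (1 / 40)
  rw [← hε] at this
  linarith

end

end Pool.Agent.Q30.Lext
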