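import Pool.Agent.Q30.Lext.Lower

/-!
# The three-point space `{0, 1, 3}`
-/

set_option autoImplicit false
open Filter Topology
open scoped ENNReal

namespace Pool.Agent.Q30.Lext

noncomputable section

/-- the three-point subspace `{0, 1, 3}` of the real line -/
abbrev A3 : Type := ({0, 1, 3} : Set ℝ)

lemma trace_real_ge (K : ℕ) (hK : 0 < K) :
    ∀ᶠ p : ℝ in 𝓝[>] 0, ENNReal.ofReal ((1 / 2) * K) ≤ pTrace p ({0, 1, 3} : Set ℝ) := by
  have hK' : (0 : ℝ) < K := by exact_mod_cast hK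
  have h := trace_ge (M := ℝ) (a := 0) (b := 1) (c := 3) (by rw [Real.dist_eq]; norm_num)
    (by rw [Real.dist_eq]; norm_num) (by rw [Real.dist_eq]; norm_num) (h := 1 / K) (D := 3)
    (by positivity) K (fun k => k / K) (by simp) (by simp [hK'.ne']) ?_ ?_ (δ := 1 / 2) (by norm_num)
  · filter_upwards [h] with p hp
    rwa [show (1 - 1 / 2 : ℝ) / (1 / K) = 1 / 2 * K by field_simp; ring] at hp
  · intro k _
    rw [Real.dist_eq, abs_sub_comm]
    push_cast
    rw [show ((k : ℝ) + 1) / K - k / K = 1 / K by ring, abs_of_pos (by positivity)]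
  · intro k hk
    have h1 : (0 : ℝ) ≤ k / K := by positivity
    have h2 : (k : ℝ) / K ≤ 1 := by
      rw [div_le_one hK']
      exact_mod_cast hk
    simp only [Real.dist_eq, abs_le]
    exact ⟨⟨by linarith, by linarith⟩, ⟨by linarith, by linarith⟩, ⟨by linarith, by linarith⟩⟩

lemma trace_le_ae (p : ℝ) : pTrace p ({0, 1, 3} : Set ℝ) ≤ aeC p A3 := by
  have h : Isometry (Subtype.val : A3 → ℝ) := isometry_subtype_coe
  have h2 : pTrace p (Set.range (Subtype.val : A3 → ℝ)) ≤ aeC p A3 :=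
    le_iSup_of_le ℝ (le_iSup_of_le inferInstance (le_iSup_of_le Subtype.val (le_iSup_of_le h le_rfl)))
  rwa [Subtype.range_coe] at h2

lemma ae_ge (K : ℕ) : ∀ᶠ p : ℝ in 𝓝[>] 0, (K : ℝ≥0∞) < aeC p A3 := by
  filter_upwards [trace_real_ge (2 * K + 2) (by omega)] with p hp
  refine lt_of_lt_of_le ?_ (hp.trans (trace_le_ae p))
  rw [← ENNReal.ofReal_natCast, ENNReal.ofReal_lt_ofReal_iff_of_nonneg (by positivity)]
  push_cast
  linarith

theorem tendsto_ae : Tendsto (fun p : ℝ => aeC p A3) (𝓝[>] 0) (𝓝 ⊤) :=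
  ENNReal.tendsto_nhds_top fun K => ae_ge K

lemma bump_lip {M : Type} [MetricSpace M] (a x y : M) :
    |max 0 (1 - dist x a) - max 0 (1 - dist y a)| ≤ dist x y := by
  rw [max_comm 0, max_comm 0]
  refine (abs_max_sub_max_le_abs _ _ _).trans ?_
  rw [show (1 - dist x a) - (1 - dist y a) = -(dist x a - dist y a) by ring, abs_neg]
  exact abs_dist_sub_le x y a

theorem ae_one_le : aeC 1 A3 ≤ 5 := by
  classical
  refine iSup_le fun M => iSup_le fun _ => iSup_le fun ι => iSup_le fun hι => ?_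
  refine sInf_le ⟨by norm_num, ?_⟩
  intro Z _ _ N hN f hf
  set L : ℝ := (lipC N f).toReal with hL
  have hL0 : 0 ≤ L := ENNReal.toReal_nonneg
  have hfL : lipC N f = ENNReal.ofReal L := (ENNReal.ofReal_toReal hf.ne).symm
  let a : A3 := ⟨0, by simp⟩
  let b : A3 := ⟨1, by simp⟩
  let c : A3 := ⟨3, by simp⟩
  have hall : ∀ x : A3, x = a ∨ x = b ∨ x = c := by
    rintro ⟨x, hx⟩
    simp only [Set.mem_insert_iff, Set.mem_singleton_iff] at hx
    rcases hx with rfl | rfl | rfl
    · exact Or.inl rfl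
    · exact Or.inr (Or.inl rfl)
    · exact Or.inr (Or.inr rfl)
  have dab : dist (ι a) (ι b) = 1 := by
    rw [hι.dist_eq]; show dist (0 : ℝ) 1 = 1; rw [Real.dist_eq]; norm_num
  have dac : dist (ι a) (ι c) = 3 := by
    rw [hι.dist_eq]; show dist (0 : ℝ) 3 = 3; rw [Real.dist_eq]; norm_num
  have dbc : dist (ι b) (ι c) = 2 := by
    rw [hι.dist_eq]; show dist (1 : ℝ) 3 = 2; rw [Real.dist_eq]; norm_num
  let fa : Z := f ⟨ι a, a, rfl⟩
  let fb : Z := f ⟨ι b, b, rfl⟩
  let fc : Z := f ⟨ι c, c, rfl⟩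
  have hadd : ∀ x y : Z, N (x + y) ≤ N x + N y := by
    intro x y
    have := hN.add x y
    rwa [Real.rpow_one, Real.rpow_one, Real.rpow_one] at this
  have hLe : lipC N f ≤ ENNReal.ofReal L := hfL.le
  have l1 : N (fa - fc) ≤ L * 3 := by
    have := le_of_lipC hL0 hLe (x := ⟨ι a, a, rfl⟩) (y := ⟨ι c, c, rfl⟩) (by
      intro e
      have e' : ι a = ι c := congrArg Subtype.val e
      rw [e', dist_self] at dac; norm_num at dac)
    rwa [Subtype.dist_eq, dac] at this
  have l2 : N (fb - fc) ≤ L * 2 := by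
    have := le_of_lipC hL0 hLe (x := ⟨ι b, b, rfl⟩) (y := ⟨ι c, c, rfl⟩) (by
      intro e
      have e' : ι b = ι c := congrArg Subtype.val e
      rw [e', dist_self] at dbc; norm_num at dbc)
    rwa [Subtype.dist_eq, dbc] at this
  refine ⟨fun x => fc + max 0 (1 - dist x (ι a)) • (fa - fc) + max 0 (1 - dist x (ι b)) • (fb - fc),
    ?_, ?_⟩
  · rintro ⟨x, y, rfl⟩
    show fc + max 0 (1 - dist (ι y) (ι a)) • (fa - fc) + max 0 (1 - dist (ι y) (ι b)) • (fb - fc) = _
    rcases hall y with rfl | rfl | rfl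
    · rw [dist_self, dab]
      norm_num
      rfl
    · rw [dist_comm (ι b) (ι a), dab, dist_self]
      norm_num
      rfl
    · rw [dist_comm (ι c) (ι a), dac, dist_comm (ι c) (ι b), dbc]
      norm_num
      rfl
  · have h5 : (5 : ℝ≥0∞) * lipC N f = ENNReal.ofReal (5 * L) := by
      rw [hfL, ENNReal.ofReal_mul (by norm_num)]
      norm_num
    rw [h5]
    apply lipC_le
    intro x y _
    set ux := max 0 (1 - dist x (ι a))
    set uy := max 0 (1 - dist y (ι a))
    set vx := max 0 (1 - dist x (ι b))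
    set vy := max 0 (1 - dist y (ι b))
    have hu : |ux - uy| ≤ dist x y := bump_lip _ _ _
    have hv : |vx - vy| ≤ dist x y := bump_lip _ _ _
    have e : fc + ux • (fa - fc) + vx • (fb - fc) - (fc + uy • (fa - fc) + vy • (fb - fc)) =
        (ux - uy) • (fa - fc) + (vx - vy) • (fb - fc) := by
      rw [sub_smul, sub_smul]; abel
    show N (fc + ux • (fa - fc) + vx • (fb - fc) - (fc + uy • (fa - fc) + vy • (fb - fc))) ≤ _
    rw [e]
    refine (hadd _ _).trans ?_
    rw [hN.smul, hN.smul]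
    have m1 : |ux - uy| * N (fa - fc) ≤ dist x y * (L * 3) :=
      mul_le_mul hu l1 (hN.nonneg _) dist_nonneg
    have m2 : |vx - vy| * N (fb - fc) ≤ dist x y * (L * 2) :=
      mul_le_mul hv l2 (hN.nonneg _) dist_nonneg
    linarith

end

end Pool.Agent.Q30.Lext
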