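import Pool.Agent.Q30.Lext.Lower

/-!
# Basso's upper bound: `t_p(S, M) ≤ |M \ S| + 1`, through a retraction
-/

set_option autoImplicit false
open Filter Topology
open scoped ENNReal

namespace Pool.Agent.Q30.Lext

noncomputable section

/-- pseudometric (as a bare function) -/
structure PM {X : Type} (d : X → X → ℝ) : Prop where
  refl : ∀ x, d x x = 0
  symm : ∀ x y, d x y = d y x
  nonneg : ∀ x y, 0 ≤ d x y
  tri : ∀ x y z, d x z ≤ d x y + d y z

/-- the pseudometric after identifying `t` and `z` -/
def glue {X : Type} (d : X → X → ℝ) (t z : X) (x y : X) : ℝ :=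
  min (d x y) (min (d x z + d t y) (d x t + d z y))

lemma glue_PM {X : Type} {d : X → X → ℝ} (hd : PM d) (t z : X) : PM (glue d t z) where
  refl := by
    intro x
    unfold glue
    rw [hd.refl, min_eq_left]
    exact le_min (add_nonneg (hd.nonneg _ _) (hd.nonneg _ _)) (add_nonneg (hd.nonneg _ _) (hd.nonneg _ _))
  symm := by
    intro x y
    unfold glue
    rw [hd.symm x y, min_comm (d x z + d t y), hd.symm x t, hd.symm z y, hd.symm x z, hd.symm t y,
      add_comm (d t x), add_comm (d z x)]
  nonneg := by
    intro x y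
    unfold glue
    exact le_min (hd.nonneg _ _) (le_min (add_nonneg (hd.nonneg _ _) (hd.nonneg _ _))
      (add_nonneg (hd.nonneg _ _) (hd.nonneg _ _)))
  tri := by
    intro x y w
    have g1 : glue d t z x w ≤ d x w := min_le_left _ _
    have g2 : glue d t z x w ≤ d x z + d t w := (min_le_right _ _).trans (min_le_left _ _)
    have g3 : glue d t z x w ≤ d x t + d z w := (min_le_right _ _).trans (min_le_right _ _)
    have n1 := hd.nonneg t y
    have n2 := hd.nonneg y z
    have n3 := hd.nonneg z y
    have n4 := hd.nonneg y t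
    have key : ∀ A B : ℝ, (A = d x y ∨ A = d x z + d t y ∨ A = d x t + d z y) →
        (B = d y w ∨ B = d y z + d t w ∨ B = d y t + d z w) → glue d t z x w ≤ A + B := by
      intro A B hA hB
      rcases hA with rfl | rfl | rfl <;> rcases hB with rfl | rfl | rfl
      · linarith [hd.tri x y w]
      · linarith [hd.tri x y z]
      · linarith [hd.tri x y t]
      · linarith [hd.tri t y w]
      · linarith
      · linarith [hd.tri x z w]
      · linarith [hd.tri z y w]
      · linarith [hd.tri x t w]
      · linarith
    refine key _ _ ?_ ?_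
    · unfold glue
      rcases min_choice (d x y) (min (d x z + d t y) (d x t + d z y)) with h | h
      · left; exact h
      · rcases min_choice (d x z + d t y) (d x t + d z y) with h' | h'
        · right; left; rw [h, h']
        · right; right; rw [h, h']
    · unfold glue
      rcases min_choice (d y w) (min (d y z + d t w) (d y t + d z w)) with h | h
      · left; exact h
      · rcases min_choice (d y z + d t w) (d y t + d z w) with h' | h'
        · right; left; rw [h, h']
        · right; right; rw [h, h']

/-- the retraction -/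
theorem exists_retraction {X : Type} [DecidableEq X] (S : Finset X) (hS : S.Nonempty) :
    ∀ (m : ℕ) (T : Finset X) (d : X → X → ℝ), PM d → T.card = m → Disjoint S T →
      ∃ r : X → X, (∀ x ∈ S ∪ T, r x ∈ S) ∧ (∀ x ∈ S, r x = x) ∧
        ∀ x ∈ S ∪ T, ∀ y ∈ S ∪ T, d (r x) (r y) ≤ (m + 1) * d x y := by
  intro m
  induction m with
  | zero =>
    intro T d hd hT _
    rw [Finset.card_eq_zero] at hT
    subst hT
    refine ⟨id, ?_, fun x _ => rfl, ?_⟩
    · intro x hx
      simpa using hx
    · intro x _ y _
      simp
  | succ m ih =>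
    intro T d hd hT hdis
    -- the closest pair
    have hTne : T.Nonempty := by rw [← Finset.card_pos]; omega
    set Pairs : Finset (X × X) := (T ×ˢ (S ∪ T)).filter (fun q => q.1 ≠ q.2) with hPairs
    have hPne : Pairs.Nonempty := by
      obtain ⟨t, ht⟩ := hTne
      obtain ⟨s, hs⟩ := hS
      refine ⟨(t, s), ?_⟩
      rw [hPairs, Finset.mem_filter, Finset.mem_product]
      exact ⟨⟨ht, Finset.mem_union_left _ hs⟩, fun (e : t = s) => (Finset.disjoint_left.1 hdis hs) (e ▸ ht)⟩
    obtain ⟨⟨t, z⟩, hmem, hmin⟩ := Finset.exists_min_image Pairs (fun q => d q.1 q.2) hPne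
    rw [hPairs, Finset.mem_filter, Finset.mem_product] at hmem
    obtain ⟨⟨ht, hz⟩, htz⟩ := hmem
    simp only at ht hz htz hmin
    have hmin' : ∀ x ∈ S ∪ T, ∀ y ∈ S ∪ T, x ≠ y → ¬ (x ∈ S ∧ y ∈ S) → d t z ≤ d x y := by
      intro x hx y hy hxy hn
      by_cases hxT : x ∈ T
      · exact hmin (x, y) (by rw [hPairs, Finset.mem_filter, Finset.mem_product]; exact ⟨⟨hxT, hy⟩, hxy⟩)
      · have hxS : x ∈ S := (Finset.mem_union.1 hx).resolve_right hxT
        have hyT : y ∈ T := (Finset.mem_union.1 hy).resolve_left (fun h => hn ⟨hxS, h⟩)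
        rw [hd.symm x y]
        exact hmin (y, x) (by
          rw [hPairs, Finset.mem_filter, Finset.mem_product]; exact ⟨⟨hyT, hx⟩, hxy.symm⟩)
    have hcard : (T.erase t).card = m := by rw [Finset.card_erase_of_mem ht, hT]; rfl
    obtain ⟨r, hr1, hr2, hr3⟩ := ih (T.erase t) (glue d t z) (glue_PM hd t z) hcard
      (Finset.disjoint_of_subset_right (Finset.erase_subset _ _) hdis)
    have htS : t ∉ S := fun h => Finset.disjoint_left.1 hdis h ht
    have hbar : ∀ x ∈ S ∪ T, x ≠ t → x ∈ S ∪ T.erase t := by
      intro x hx hxt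
      rcases Finset.mem_union.1 hx with h | h
      · exact Finset.mem_union_left _ h
      · exact Finset.mem_union_right _ (Finset.mem_erase.2 ⟨hxt, h⟩)
    set bar : X → X := fun x => if x = t then z else x with hbardef
    have hbar' : ∀ x ∈ S ∪ T, bar x ∈ S ∪ T.erase t := by
      intro x hx
      by_cases h : x = t
      · rw [hbardef]; simp only [h, if_true]
        exact hbar z hz htz.symm
      · rw [hbardef]; simp only [h, if_false]
        exact hbar x hx h
    have hbarS : ∀ x ∈ S, bar x = x := by
      intro x hx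
      rw [hbardef]
      simp only
      rw [if_neg (fun e : x = t => htS (e ▸ hx))]
    refine ⟨fun x => r (bar x), fun x hx => hr1 _ (hbar' x hx), fun x hx => ?_, ?_⟩
    · show r (bar x) = x
      rw [hbarS x hx]; exact hr2 x hx
    · intro x hx y hy
      show d (r (bar x)) (r (bar y)) ≤ _
      by_cases hxy : x = y
      · rw [hxy, hd.refl, hd.refl, mul_zero]
      · by_cases hSS : x ∈ S ∧ y ∈ S
        · rw [hbarS x hSS.1, hbarS y hSS.2, hr2 x hSS.1, hr2 y hSS.2]
          have h0 := hd.nonneg x y
          have : (0 : ℝ) ≤ ((m + 1 : ℕ) : ℝ) := Nat.cast_nonneg _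
          nlinarith
        · have he := hmin' x hx y hy hxy hSS
          have h1 := hr3 _ (hbar' x hx) _ (hbar' y hy)
          -- `d ≤ glue + d t z`
          have h2 : ∀ u v : X, d u v ≤ glue d t z u v + d t z := by
            intro u v
            have a1 := hd.tri u z v
            have a2 := hd.tri z t v
            have a3 := hd.tri u t v
            have a4 := hd.tri t z v
            have a5 := hd.symm z t
            have a6 := hd.nonneg t z
            unfold glue
            rcases min_choice (d u v) (min (d u z + d t v) (d u t + d z v)) with h | h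
            · rw [h]; linarith
            · rcases min_choice (d u z + d t v) (d u t + d z v) with h' | h'
              · rw [h, h']; linarith
              · rw [h, h']; linarith
          -- the quotient map is 1-Lipschitz
          have h3 : glue d t z (bar x) (bar y) ≤ d x y := by
            rw [hbardef]
            simp only
            split_ifs with c1 c2 c2
            · exact absurd (c1.trans c2.symm) hxy
            · rw [c1]
              refine ((min_le_right _ _).trans (min_le_left _ _)).trans ?_
              rw [hd.refl, zero_add]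
            · rw [c2]
              refine ((min_le_right _ _).trans (min_le_right _ _)).trans ?_
              rw [hd.refl, add_zero]
            · exact min_le_left _ _
          have h4 := h2 (r (bar x)) (r (bar y))
          have h5 : ((m : ℝ) + 1) * glue d t z (bar x) (bar y) ≤ ((m : ℝ) + 1) * d x y :=
            mul_le_mul_of_nonneg_left h3 (by positivity)
          push_cast
          linarith

/-- Basso's bound -/
theorem trace_le {M : Type} [MetricSpace M] (p : ℝ) (S : Set M) (hS : S.Nonempty) (hSf : S.Finite)
    (hT : Sᶜ.Finite) {m : ℕ} (hm : Sᶜ.ncard ≤ m) : pTrace p S ≤ (m : ℝ≥0∞) + 1 := by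
  classical
  refine sInf_le ⟨by positivity, ?_⟩
  intro Z _ _ N hN f hf
  have hdis : Disjoint hSf.toFinset hT.toFinset := by
    rw [Finset.disjoint_left]
    intro x hx hx'
    exact (hT.mem_toFinset.1 hx') (hSf.mem_toFinset.1 hx)
  obtain ⟨r, hr1, hr2, hr3⟩ := exists_retraction hSf.toFinset (by
    rw [Set.Finite.toFinset_nonempty]; exact hS) _ hT.toFinset (fun x y : M => dist x y)
    ⟨dist_self, dist_comm, fun _ _ => dist_nonneg, dist_triangle⟩ rfl hdis
  have hall : ∀ x : M, x ∈ hSf.toFinset ∪ hT.toFinset := by
    intro x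
    rw [Finset.mem_union, hSf.mem_toFinset, hT.mem_toFinset]
    exact em _
  have hrS : ∀ x, r x ∈ S := fun x => hSf.mem_toFinset.1 (hr1 x (hall x))
  set L : ℝ := (lipC N f).toReal with hL
  have hL0 : 0 ≤ L := ENNReal.toReal_nonneg
  have hfL : lipC N f = ENNReal.ofReal L := (ENNReal.ofReal_toReal hf.ne).symm
  have hN0 : N 0 = 0 := by
    have := hN.smul 0 0
    rwa [smul_zero, abs_zero, zero_mul] at this
  refine ⟨fun x => f ⟨r x, hrS x⟩, fun x => ?_, ?_⟩
  · have : r x = x := hr2 _ (hSf.mem_toFinset.2 x.2)
    exact congrArg f (Subtype.ext this)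
  · have h5 : ((m : ℝ≥0∞) + 1) * lipC N f = ENNReal.ofReal (((m : ℝ) + 1) * L) := by
      rw [hfL, ENNReal.ofReal_mul (by positivity), ENNReal.ofReal_add (by positivity) zero_le_one,
        ENNReal.ofReal_natCast, ENNReal.ofReal_one]
    rw [h5]
    apply lipC_le
    intro x y hxy
    have h1 : N (f ⟨r x, hrS x⟩ - f ⟨r y, hrS y⟩) ≤ L * dist (r x) (r y) := by
      by_cases he : r x = r y
      · have : (⟨r x, hrS x⟩ : S) = ⟨r y, hrS y⟩ := Subtype.ext he
        rw [this, sub_self, hN0]
        positivity
      · exact le_of_lipC hL0 hfL.le (x := ⟨r x, hrS x⟩) (y := ⟨r y, hrS y⟩)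
          (fun e => he (congrArg Subtype.val e))
    have h2 : dist (r x) (r y) ≤ ((hT.toFinset.card : ℝ) + 1) * dist x y := hr3 x (hall x) y (hall y)
    have h3 : (hT.toFinset.card : ℝ) ≤ m := by
      have : hT.toFinset.card ≤ m := by rwa [← Set.ncard_eq_toFinset_card _ hT]
      exact_mod_cast this
    calc N (f ⟨r x, hrS x⟩ - f ⟨r y, hrS y⟩) ≤ L * dist (r x) (r y) := h1
      _ ≤ L * (((hT.toFinset.card : ℝ) + 1) * dist x y) := mul_le_mul_of_nonneg_left h2 hL0
      _ ≤ L * (((m : ℝ) + 1) * dist x y) := by gcongr
      _ = ((m : ℝ) + 1) * L * dist x y := by ring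

end

end Pool.Agent.Q30.Lext
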